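import Pool.Agent.KS.Final

open Filter Topology

namespace Pool.Agent.Results.MP_6f8d6f_an.LimitExists

/-- Coulomb energy of the configuration `x`: the sum of `1 / |x i - x j|` over `i < j`. -/
noncomputable def coulomb {N : ℕ} (x : Fin N → EuclideanSpace ℝ (Fin 3)) : ℝ :=
  ∑ i, ∑ j ∈ Finset.Ioi i, 1 / ‖x i - x j‖

/-- `E(-1, N)`: the infimum of the Coulomb energy over all `N`-tuples of distinct points of the
unit sphere of `ℝ^3`. -/
noncomputable def minEnergy (N : ℕ) : ℝ :=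
  sInf {e : ℝ | ∃ x : Fin N → EuclideanSpace ℝ (Fin 3),
    Function.Injective x ∧ (∀ i, ‖x i‖ = 1) ∧ e = coulomb x}

/-- The second-order limit of Kuijlaars and Saff exists, and lies between `-√2 π / 8` and the
conjectured value `C`. -/
theorem result : ∃ L C : ℝ,
    (C : ℂ) = (Real.sqrt 3 : ℂ) * (Real.sqrt (Real.sqrt 3 / (8 * Real.pi)) : ℂ) *
      riemannZeta (1 / 2) * (HurwitzZeta.hurwitzZeta (((1 / 3 : ℝ) : UnitAddCircle)) (1 / 2)
        - HurwitzZeta.hurwitzZeta (((2 / 3 : ℝ) : UnitAddCircle)) (1 / 2)) ∧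
    Tendsto (fun N : ℕ => (minEnergy N - (N : ℝ) ^ 2 / 2) / (N : ℝ) ^ (3 / 2 : ℝ)) atTop (𝓝 L) ∧
    -(Real.sqrt 2 * Real.pi / 8) ≤ L ∧ L ≤ C := by
  obtain ⟨L, hL⟩ := Pool.KS.Final.lima
  have hE : ∀ N : ℕ, (minEnergy N - (N : ℝ) ^ 2 / 2) / (N : ℝ) ^ (3 / 2 : ℝ)
      = Pool.KS.fE N / (N * Real.sqrt N) := by
    intro N
    have h1 : minEnergy N = Pool.KS.Emin N := by
      unfold minEnergy Pool.KS.Emin
      rw [← Pool.KS.Final.set_eq]
      rfl
    rw [h1, Pool.KS.Final.rpow_eq]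
    rfl
  refine ⟨L, Pool.KS.CKS, ?_, ?_, ?_, ?_⟩
  · have h := Pool.KS.Final.prod_real
    unfold Pool.KS.CKS
    have e : ((Real.sqrt 3 * Real.sqrt (Real.sqrt 3 / (8 * Real.pi))
        * (riemannZeta (1 / 2)).re * (Pool.KS.hz (1 / 2)).re : ℝ) : ℂ)
        = (Real.sqrt 3 : ℂ) * (Real.sqrt (Real.sqrt 3 / (8 * Real.pi)) : ℂ)
          * (((riemannZeta (1 / 2)).re * (Pool.KS.hz (1 / 2)).re : ℝ) : ℂ) := by
      push_cast
      ring
    rw [e, ← h, Pool.KS.hz]
    ring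
  · simp only [hE]
    exact hL
  · apply ge_of_tendsto hL
    filter_upwards [eventually_ge_atTop 5] with N hN
    have hN0 : (0 : ℝ) < N := by
      have : (5 : ℝ) ≤ N := by exact_mod_cast hN
      linarith
    rw [le_div_iff₀ (by positivity)]
    apply le_of_forall_pos_le_add
    intro η hη
    obtain ⟨w, hw, hs, he⟩ := Pool.KS.Final.func.2.1 N η hη
    have h := Pool.KS.Final.lowb w hs (by rw [hw]; exact hN)
    rw [hw] at h
    unfold Pool.KS.fE
    linarith
  · apply le_of_forall_pos_le_add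
    intro η hη
    apply le_of_tendsto hL
    filter_upwards [Pool.KS.Final.limb η hη, eventually_ge_atTop 1] with N h hN
    have hN0 : (0 : ℝ) < N := by exact_mod_cast hN
    rw [div_le_iff₀ (by positivity)]
    exact h

end Pool.Agent.Results.MP_6f8d6f_an.LimitExists
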