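import Pool.Agent.KS.Final

namespace Pool.Agent.Results.MP_6f8d6f_an.LowerBound

/-- Explicit lower bound for the Coulomb energy of any `N ≥ 5` distinct points of the unit
sphere. -/
theorem result (N : ℕ) (hN : 5 ≤ N) (x : Fin N → EuclideanSpace ℝ (Fin 3))
    (hx : Function.Injective x) (hs : ∀ i, ‖x i‖ = 1) :
    (N : ℝ) ^ 2 / 2 - Real.sqrt 2 * Real.pi / 8 * (N : ℝ) ^ (3 / 2 : ℝ)
      ≤ ∑ i, ∑ j ∈ Finset.Ioi i, 1 / ‖x i - x j‖ := by
  have h1 := Pool.KS.Final.coul_eq x hx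
  have hw : Pool.KS.OnS (Finset.univ.map ⟨x, hx⟩) := by
    intro y hy
    rw [Finset.mem_map] at hy
    obtain ⟨i, _, rfl⟩ := hy
    exact hs i
  have hc : (Finset.univ.map ⟨x, hx⟩).card = N := by simp
  have h := Pool.KS.Final.lowb _ hw (by rw [hc]; exact hN)
  rw [hc, ← h1, ← Pool.KS.Final.rpow_eq] at h
  exact h

end Pool.Agent.Results.MP_6f8d6f_an.LowerBound
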